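import Mathlib

set_option autoImplicit false

namespace Pool.Agent.Results.MP_dca5ce_ag.NotTwo

open PowerSeries TensorProduct Classical

noncomputable section

abbrev V := ℚ⟦X⟧

theorem c2 (f g : V) : coeff 2 (f * g) =
    coeff 0 f * coeff 2 g + coeff 1 f * coeff 1 g + coeff 2 f * coeff 0 g := by
  simp [coeff_mul, Finset.Nat.antidiagonal_succ, add_assoc]

theorem c1 (f g : V) : coeff 1 (f * g) = coeff 0 f * coeff 1 g + coeff 1 f * coeff 0 g := by
  simp [coeff_mul, Finset.Nat.antidiagonal_succ]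

def R : Subring V where
  carrier := {f | coeff 1 f = 0 ∧ coeff 2 f = 0}
  mul_mem' a b := by simp only [Set.mem_ofPred_eq, c1, c2] at *; simp [a.1, a.2, b.1, b.2]
  one_mem' := by simp [coeff_one]
  add_mem' a b := by simp only [Set.mem_ofPred_eq, map_add] at *; simp [a.1, a.2, b.1, b.2]
  zero_mem' := by simp
  neg_mem' a := by simp only [Set.mem_ofPred_eq, map_neg] at *; simp [a.1, a.2]

def D (h : V) : R := ⟨X ^ 3 * h, by constructor <;> simp [coeff_X_pow_mul']⟩

def K (c : ℚ) : R := ⟨C c, by constructor <;> simp [coeff_C]⟩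

theorem dec (r : R) : ∃ h, r = K (coeff 0 r.1) + D h := by
  obtain ⟨h, e⟩ : X ^ 3 ∣ r.1 - C (coeff 0 r.1) := X_pow_dvd_iff.mpr fun m hm => by
    interval_cases m <;> simp [coeff_C, r.2.1, r.2.2]
  exact ⟨h, Subtype.ext (by simp [K, D, ← e])⟩

theorem unit (r : R) (h : coeff 0 r.1 ≠ 0) : IsUnit r := by
  obtain ⟨g, hg⟩ := (isUnit_iff_constantCoeff.mpr (Ne.isUnit (by simpa using h))).exists_right_inv
  have a1 := c1 r.1 g
  have a2 := c2 r.1 g
  rw [hg, r.2.1] at a1 a2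
  have h' : constantCoeff r.1 ≠ 0 := by simpa using h
  have b1 : coeff 1 g = 0 := by simpa [coeff_one, h'] using a1
  have b2 : coeff 2 g = 0 := by simpa [coeff_one, h', r.2.2] using a2
  exact IsUnit.of_mul_eq_one (⟨g, b1, b2⟩ : R) (Subtype.ext hg)

instance : IsLocalRing R := .of_isUnit_or_isUnit_one_sub_self fun r => by
  by_cases h : coeff 0 r.1 = 0
  · exact Or.inr (unit _ (by simpa using by rw [← coeff_zero_eq_constantCoeff_apply, h]; simp))
  · exact Or.inl (unit _ h)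

theorem nonunit (r : R) (h : r ∈ IsLocalRing.maximalIdeal R) : ∃ h, r = D h := by
  obtain ⟨g, e⟩ := dec r
  refine ⟨g, e.trans ?_⟩
  rw [not_not.mp (mt (unit r) h), add_eq_right]
  exact Subtype.ext (by simp [K])

theorem D_mem (h : V) : D h ∈ IsLocalRing.maximalIdeal R := fun a => by
  simpa [D] using isUnit_iff_constantCoeff.mp (a.map R.subtype)

theorem rad (x : R) (hx : x ≠ 0) : IsLocalRing.maximalIdeal R ≤ (Ideal.span {x}).radical := by
  intro r hr
  obtain ⟨h, rfl⟩ := nonunit r hr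
  obtain ⟨u, hu⟩ := (isUnit_divided_by_X_pow_order (f := x.1) (by simpa using hx)).exists_right_inv
  refine ⟨x.1.order.toNat + 1, Ideal.mem_span_singleton'.mpr
    ⟨D (u * X ^ (2 * x.1.order.toNat) * h ^ (x.1.order.toNat + 1)), Subtype.ext ?_⟩⟩
  have := X_pow_order_mul_divXPowOrder (f := x.1)
  simp only [D, Subring.coe_mul, SubmonoidClass.coe_pow]
  generalize x.1.order.toNat = n at *
  rw [← this]
  linear_combination (X ^ (3 * n + 3) * h ^ (n + 1)) * hu

instance : IsNoetherianRing R := .of_prime_ne_bot fun P hP h0 => by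
  obtain ⟨x, h1, h2⟩ := Submodule.exists_mem_ne_zero_of_ne_bot h0
  have : P = IsLocalRing.maximalIdeal R := le_antisymm (IsLocalRing.le_maximalIdeal hP.ne_top)
    ((rad x h2).trans (hP.radical_le_iff.mpr ((Ideal.span_singleton_le_iff_mem _).mpr h1)))
  refine ⟨{D 1, D X, D (X ^ 2)}, this ▸ le_antisymm (Ideal.span_le.mpr ?_) fun r hr => ?_⟩
  · simp only [Finset.coe_insert, Finset.coe_singleton, Set.insert_subset_iff, Set.singleton_subset_iff]
    exact ⟨D_mem _, D_mem _, D_mem _⟩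
  · obtain ⟨h, rfl⟩ := nonunit r hr
    obtain ⟨g, e⟩ : X ^ 3 ∣ h - C (coeff 0 h) - C (coeff 1 h) * X - C (coeff 2 h) * X ^ 2 :=
      X_pow_dvd_iff.mpr fun m hm => by
        interval_cases m <;> simp [coeff_C, coeff_X, coeff_X_pow]
    have : D h = (K (coeff 0 h) + D g) * D 1 + K (coeff 1 h) * D X + K (coeff 2 h) * D (X ^ 2) :=
      Subtype.ext (by simp only [K, D, Subring.coe_mul, Subring.coe_add]; linear_combination X ^ 3 * e)
    rw [this]
    refine add_mem (add_mem ?_ ?_) ?_ <;> exact Ideal.mul_mem_left _ _ (Ideal.subset_span (by simp))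

def M : Submodule R (V × V) where
  carrier := {p | coeff 1 p.1 = 0 ∧ coeff 2 p.2 = 0 ∧ coeff 2 p.1 = coeff 1 p.2}
  add_mem' a b := by
    simp only [Set.mem_ofPred_eq, Prod.fst_add, Prod.snd_add, map_add] at *
    simp [a.1, a.2.1, a.2.2, b.1, b.2.1, b.2.2]
  zero_mem' := by simp
  smul_mem' r p a := by
    change coeff 1 (r.1 * p.1) = 0 ∧ coeff 2 (r.1 * p.2) = 0 ∧ coeff 2 (r.1 * p.1) = coeff 1 (r.1 * p.2)
    simp only [c1, c2, r.2.1, r.2.2, a.1, a.2.1, a.2.2]
    simp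

def e1 : M := ⟨(1, 0), by simp [M, coeff_one]⟩
def e2 : M := ⟨(0, 1), by simp [M, coeff_one]⟩
def g : M := ⟨(X ^ 2, X), by simp [M, coeff_X, coeff_X_pow]⟩

theorem decM (m : M) : ∃ a b : R, m = a • e1 + b • e2 + K (coeff 1 m.1.2) • g := by
  refine ⟨⟨m.1.1 - C (coeff 1 m.1.2) * X ^ 2, ?_⟩, ⟨m.1.2 - C (coeff 1 m.1.2) * X, ?_⟩,
    Subtype.ext (Prod.ext ?_ ?_)⟩
  · constructor <;> simp [coeff_X_pow, m.2.1, m.2.2.2]
  · constructor <;> simp [coeff_X, m.2.2.1]
  all_goals simp [e1, e2, g, K, Subring.smul_def]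

theorem Dg (h : V) : D h • g = D (X ^ 2 * h) • e1 + D (X * h) • e2 :=
  Subtype.ext (Prod.ext (by simp [e1, e2, g, D, Subring.smul_def]; ring)
    (by simp [e1, e2, g, D, Subring.smul_def]; ring))

theorem form (z : M ⊗[R] M) : ∃ (u v : M) (a b c : ℚ),
    z = e1 ⊗ₜ u + e2 ⊗ₜ v + g ⊗ₜ (K a • e1 + K b • e2 + K c • g) := by
  have h0 : ∀ w : M, ∃ (u v : M) (a b c : ℚ),
      g ⊗ₜ[R] w = e1 ⊗ₜ u + e2 ⊗ₜ v + g ⊗ₜ (K a • e1 + K b • e2 + K c • g) := by
    intro w
    obtain ⟨a, b, e⟩ := decM w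
    obtain ⟨p, hp⟩ := dec a
    obtain ⟨q, hq⟩ := dec b
    refine ⟨D (X ^ 2 * p) • e1 + D (X ^ 2 * q) • e2, D (X * p) • e1 + D (X * q) • e2,
      coeff 0 a.1, coeff 0 b.1, coeff 1 w.1.2, ?_⟩
    have : ∀ h (y : M), g ⊗ₜ[R] (D h • y) = e1 ⊗ₜ (D (X ^ 2 * h) • y) + e2 ⊗ₜ (D (X * h) • y) := by
      intro h y
      rw [← smul_tmul, Dg, add_tmul, smul_tmul, smul_tmul]
    conv_lhs => rw [e, hp, hq]
    simp only [add_smul, tmul_add, this]
    abel
  induction z with
  | zero => exact ⟨0, 0, 0, 0, 0, by simp [show K 0 = 0 from Subtype.ext (by simp [K])]⟩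
  | tmul m m' =>
    obtain ⟨a, b, e⟩ := decM m
    obtain ⟨u, v, a', b', c', e'⟩ := h0 (K (coeff 1 m.1.2) • m')
    refine ⟨a • m' + u, b • m' + v, a', b', c', ?_⟩
    rw [e, add_tmul, add_tmul, smul_tmul, smul_tmul, smul_tmul, e', tmul_add e1, tmul_add e2]
    abel
  | add x y hx hy =>
    obtain ⟨u, v, a, b, c, rfl⟩ := hx
    obtain ⟨u', v', a', b', c', rfl⟩ := hy
    have : ∀ a b, K (a + b) = K a + K b := fun a b => Subtype.ext (by simp [K])
    refine ⟨u + u', v + v', a + a', b + b', c + c', ?_⟩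
    simp only [this, add_smul, tmul_add]
    abel

def mu (p q : V × V →ₗ[R] V) : M ⊗[R] M →ₗ[R] V :=
  LinearMap.mul' R V ∘ₗ TensorProduct.map (p ∘ₗ M.subtype) (q ∘ₗ M.subtype)

theorem tf : Submodule.torsion R (M ⊗[R] M) = ⊥ := by
  refine eq_bot_iff.mpr fun z ⟨r, hr⟩ => ?_
  have h : ∀ p q, mu p q z = 0 := fun p q => by
    have := congrArg (mu p q) hr
    rw [Submonoid.smul_def, map_smul, map_zero, Subring.smul_def, smul_eq_mul] at this
    exact (mul_eq_zero.mp this).resolve_left (by simp)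
  obtain ⟨u, v, a, b, c, rfl⟩ := form z
  have h1 := h (.fst _ _ _) (.fst _ _ _)
  have h2 := h (.fst _ _ _) (.snd _ _ _)
  have h3 := h (.snd _ _ _) (.fst _ _ _)
  have h4 := h (.snd _ _ _) (.snd _ _ _)
  simp [mu, e1, e2, g, K, Subring.smul_def] at h1 h2 h3 h4
  have ha : a = 0 := by simpa [v.2.1, c1, coeff_X_pow] using congrArg (coeff 1) h3
  have hb : b = 0 := by simpa [u.2.2.1, c2, coeff_X_pow] using congrArg (coeff 2) h2
  have hc : c = 0 := by simpa [v.2.2.1, c2, coeff_X, coeff_C] using congrArg (coeff 2) h4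
  simp [ha, hb, hc] at h1 h2 h3 h4
  have hu : u = 0 := Subtype.ext (Prod.ext h1 h2)
  have hv : v = 0 := Subtype.ext (Prod.ext h3 h4)
  simp [ha, hb, hc, hu, hv, show K 0 = 0 from Subtype.ext (by simp [K])]

theorem not_free : ¬ Module.Free R M := by
  intro h
  let b := Module.Free.chooseBasis R M
  have h1 : ∀ f : M →ₗ[R] R, coeff 0 (f g).1 = 0 := by
    intro f
    have := congrArg (fun x => coeff 3 (f x).1) (Dg 1)
    simpa [D, ← pow_add, ← pow_succ, coeff_X_pow_mul'] using this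
  have h2 : ∀ (r : R) (m : M), coeff 1 (r • m).1.2 = coeff 0 r.1 * coeff 1 m.1.2 := by
    intro r m
    change coeff 1 (r.1 * m.1.2) = _
    rw [c1, r.2.1, zero_mul, add_zero]
  have := congrArg (fun m : M => coeff 1 m.1.2) (b.linearCombination_repr g)
  simp only [Finsupp.linearCombination_apply, Finsupp.sum, Submodule.coe_sum, Prod.snd_sum,
    map_sum, h2] at this
  rw [Finset.sum_eq_zero fun i _ => by rw [← b.coord_apply, h1, zero_mul]] at this
  simp [g] at this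

theorem result : ¬ ∀ (R : Type) [CommRing R] [IsDomain R] [IsNoetherianRing R] [IsLocalRing R],
    ringKrullDim R = 1 → ∀ (M : Type) [AddCommGroup M] [Module R M], Module.Finite R M →
      Submodule.torsion R M = ⊥ → ¬ Module.Free R M → Submodule.torsion R (M ⊗[R] M) ≠ ⊥ := by
  intro h
  refine h R (ringKrullDim_eq_one_iff_of_isLocalRing_isDomain.mpr ⟨fun a => ?_, rad⟩) M
    ⟨{e1, e2, g}, eq_top_iff.mpr fun m _ => ?_⟩ (eq_bot_iff.mpr fun z ⟨r, hr⟩ => ?_) not_free tf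
  · have := D_mem 1
    rw [(IsLocalRing.isField_iff_maximalIdeal_eq).mp a] at this
    simpa [D] using congrArg Subtype.val this
  · obtain ⟨a, b, e⟩ := decM m
    rw [e]
    refine add_mem (add_mem ?_ ?_) ?_ <;>
      exact Submodule.smul_mem _ _ (Submodule.subset_span (by simp))
  · have h0 : r.1.1 ≠ 0 := by simp
    exact Subtype.ext (Prod.ext ((mul_eq_zero.mp (congrArg (·.1.1) hr)).resolve_left h0)
      ((mul_eq_zero.mp (congrArg (·.1.2) hr)).resolve_left h0))

end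

end Pool.Agent.Results.MP_dca5ce_ag.NotTwo
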